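import Pool.Agent.U735.SO.Stm
import Pool.Agent.U735.IL.Lef

/-!
# Dual bases of the motives of invariants
-/

set_option autoImplicit false
set_option linter.unusedSectionVars false
set_option linter.unusedSimpArgs false
set_option backward.isDefEq.respectTransparency false
set_option backward.defeqAttrib.useBackward true

open CategoryTheory Limits MonoidalCategory Pretriangulated Triangulated TensorProduct

namespace Pool.Agent.U978.SO

open Pool.Agent.Y116.MT Pool.Agent.V1178.MT Pool.Agent.U735.IL Pool.Agent.U735.SO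

universe v u v₀ u₀ w

open Functor.LaxMonoidal

section one

variable {C : Type u} [Category.{v} C] [Preadditive C] [HasZeroObject C] [HasShift C ℤ]
  [∀ n : ℤ, (shiftFunctor C n).Additive] [Pretriangulated C] [MonoidalCategory C]
  [SymmetricCategory C] [TensorTriangulated C] [MonoidalPreadditive C] [RightRigidCategory C]
  [IsTriangulated C] {E : Type w} [Field E] {R : Realisation C E} {t : TStructure C}

/-- The adjoint `M' ⟶ Mᘁ` of a pairing `M ⊗ M' ⟶ 𝟙`. -/
noncomputable def adj {M M' : C} (b : M ⊗ M' ⟶ 𝟙_ C) : M' ⟶ Mᘁ :=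
  (ρ_ M').inv ≫ M' ◁ η_ M Mᘁ ≫ (α_ M' M Mᘁ).inv ≫ ((β_ M' M).hom ≫ b) ▷ Mᘁ ≫ (λ_ Mᘁ).hom

lemma hm_adj {M M' : C} (b : M ⊗ M' ⟶ 𝟙_ C) {n : ℕ} (e : Fin n → R.H.obj M)
    (e' : Fin n → R.H.obj Mᘁ) (he : hm R (η_ M Mᘁ) (un R) = ∑ i, ex R (e i) (e' i))
    (x : R.H.obj M') :
    hm R (adj b) x = ∑ i, sc R (hm R b (ex R (e i) x)) • e' i := by
  simp only [adj, hm_comp, hm_rho_inv, hm_right, he, ex_sum_right, map_sum, hm_assoc_inv,
    hm_left, hm_braid, hm_lam']

lemma zig {M : C} {n : ℕ} (e : Fin n → R.H.obj M)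
    (e' : Fin n → R.H.obj Mᘁ) (he : hm R (η_ M Mᘁ) (un R) = ∑ i, ex R (e i) (e' i))
    (y : R.H.obj M) : ∑ i, sc R (hm R (ε_ M Mᘁ) (ex R (e' i) y)) • e i = y := by
  have h1 := congrArg (fun f => hm R f (ex R (un R) y))
    (ExactPairing.evaluation_coevaluation M Mᘁ)
  simp only [hm_comp, hm_left, he, ex_sum_left, map_sum, hm_assoc, hm_right, hm_lam,
    hm_rho_inv] at h1
  have h2 := congrArg (hm R (ρ_ M).hom) h1
  simp only [map_sum, hm_rho', sc_un, one_smul] at h2
  exact h2

lemma zag {M : C} {n : ℕ} (e : Fin n → R.H.obj M)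
    (e' : Fin n → R.H.obj Mᘁ) (he : hm R (η_ M Mᘁ) (un R) = ∑ i, ex R (e i) (e' i))
    (y : R.H.obj Mᘁ) : ∑ i, sc R (hm R (ε_ M Mᘁ) (ex R y (e i))) • e' i = y := by
  have h1 := congrArg (fun f => hm R f (ex R y (un R)))
    (ExactPairing.coevaluation_evaluation M Mᘁ)
  simp only [hm_comp, hm_right, he, ex_sum_right, map_sum, hm_assoc_inv, hm_left, hm_rho,
    hm_lam_inv] at h1
  have h2 := congrArg (hm R (λ_ (Mᘁ : C)).hom) h1
  simp only [map_sum, hm_lam', sc_un, one_smul] at h2
  exact h2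

/-- A perfect pairing of objects of the heart has a dual basis. -/
theorem exists_dual (hG : Good t R) {M M' : C} (hM : Hrt t M) (hM' : Hrt t M')
    (b : M ⊗ M' ⟶ 𝟙_ C)
    (h1 : ∀ x : R.H.obj M, (∀ y : R.H.obj M', sc R (hm R b (ex R x y)) = 0) → x = 0)
    (h2 : ∀ y : R.H.obj M', (∀ x : R.H.obj M, sc R (hm R b (ex R x y)) = 0) → y = 0) :
    ∃ (n : ℕ) (p : Fin n → R.H.obj M') (q : Fin n → R.H.obj M) (k : 𝟙_ C ⟶ M' ⊗ M),
      hm R k (un R) = ∑ i, ex R (p i) (q i) ∧
      (∀ x, ∑ i, sc R (hm R b (ex R (q i) x)) • p i = x) ∧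
      (∀ y, ∑ i, sc R (hm R b (ex R y (p i))) • q i = y) := by
  have hd : Hrt t (Mᘁ : C) := dual_hrt hG.ht hG.hu hM
  obtain ⟨n, e, e', he⟩ := exists_sum (Nn.of_deg (hG.he.deg hM)) (Nn.of_deg (hG.he.deg hd))
    (hm R (η_ M Mᘁ) (un R))
  have hB := fun x => hm_adj b e e' he x
  -- the pairing of `B x` with `y`
  have hpr : ∀ (x : R.H.obj M') (y : R.H.obj M),
      sc R (hm R (ε_ M Mᘁ) (ex R (hm R (adj b) x) y)) = sc R (hm R b (ex R y x)) := by
    intro x y
    conv_rhs => rw [← zig e e' he y]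
    rw [hB]
    simp only [ex_sum_left, ex_smul_left, map_sum, map_smul, smul_eq_mul]
    exact Finset.sum_congr rfl fun i _ => mul_comm _ _
  have hinj : Function.Injective (hm R (adj b)) := by
    rw [← LinearMap.ker_eq_bot, LinearMap.ker_eq_bot']
    intro x hx
    apply h2
    intro y
    rw [← hpr, hx, ex_zero_left, map_zero, map_zero]
  -- dimensions
  let L1 : R.H.obj M →ₗ[E] Module.Dual E (R.H.obj M') :=
    LinearMap.mk₂ E (fun x y => sc R (hm R b (ex R x y)))
      (fun x y z => by simp [ex_add_left])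
      (fun c x y => by simp [ex_smul_left])
      (fun x y z => by simp [ex_add_right])
      (fun c x y => by simp [ex_smul_right])
  have hL1 : Function.Injective L1 := by
    rw [← LinearMap.ker_eq_bot, LinearMap.ker_eq_bot']
    intro x hx
    exact h1 x fun y => LinearMap.congr_fun hx y
  let L2 : R.H.obj Mᘁ →ₗ[E] Module.Dual E (R.H.obj M) :=
    LinearMap.mk₂ E (fun x y => sc R (hm R (ε_ M Mᘁ) (ex R x y)))
      (fun x y z => by simp [ex_add_left])
      (fun c x y => by simp [ex_smul_left])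
      (fun x y z => by simp [ex_add_right])
      (fun c x y => by simp [ex_smul_right])
  have hL2 : Function.Injective L2 := by
    rw [← LinearMap.ker_eq_bot, LinearMap.ker_eq_bot']
    intro x hx
    rw [← zag e e' he x]
    apply Finset.sum_eq_zero
    intro i _
    have : sc R (hm R (ε_ M Mᘁ) (ex R x (e i))) = 0 := LinearMap.congr_fun hx (e i)
    rw [this, zero_smul]
  have e1 : Module.finrank E (R.H.obj M) ≤ Module.finrank E (R.H.obj M') := by
    have := LinearMap.finrank_le_finrank_of_injective hL1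
    rwa [Subspace.dual_finrank_eq] at this
  have e2 : Module.finrank E (R.H.obj Mᘁ) ≤ Module.finrank E (R.H.obj M) := by
    have := LinearMap.finrank_le_finrank_of_injective hL2
    rwa [Subspace.dual_finrank_eq] at this
  have hsurj : Function.Surjective (hm R (adj b)) := by
    rw [← LinearMap.range_eq_top]
    apply Submodule.eq_top_of_finrank_eq
    rw [LinearMap.finrank_range_of_inj hinj]
    have := LinearMap.finrank_le_finrank_of_injective hinj
    omega
  have hV0 : IsIso (R.H.map (adj b)) := (isIso_iff_bij _).2 ⟨hinj, hsurj⟩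
  have hV : VIso R 0 (adj b) := by
    unfold VIso
    have h5 : (adj b)⟦(0 : ℤ)⟧' = (shiftFunctorZero C ℤ).hom.app _ ≫ adj b ≫
        (shiftFunctorZero C ℤ).inv.app _ := shiftZero' (A := ℤ) (f := adj b)
    rw [h5, Functor.map_comp, Functor.map_comp]
    infer_instance
  have hcons : Conservative R := fun _ hX =>
    conservative hG.ht hG.he hG.hu hG.hid hG.hle hG.hge hX
  have hI : IsIso (adj b) := isIso_of_vIso hcons hG.he (a := 0) ⟨hM'.1, hM'.2⟩ ⟨hd.1, hd.2⟩ hV
  have hinv : ∀ x, hm R (inv (adj b)) (hm R (adj b) x) = x := fun x => by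
    rw [← hm_comp, IsIso.hom_inv_id, hm_id]
  have hinv' : ∀ x, hm R (adj b) (hm R (inv (adj b)) x) = x := fun x => by
    rw [← hm_comp, IsIso.inv_hom_id, hm_id]
  refine ⟨n, fun i => hm R (inv (adj b)) (e' i), e, η_ M Mᘁ ≫ M ◁ inv (adj b) ≫ (β_ M M').hom,
    ?_, fun x => ?_, fun y => ?_⟩
  · simp only [hm_comp, he, map_sum, hm_right, hm_braid]
  · calc ∑ i, sc R (hm R b (ex R (e i) x)) • hm R (inv (adj b)) (e' i)
        = hm R (inv (adj b)) (hm R (adj b) x) := by rw [hB, map_sum]; simp only [map_smul]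
      _ = x := hinv x
  · conv_rhs => rw [← zig e e' he y]
    apply Finset.sum_congr rfl
    intro i _
    rw [← hpr, hinv']

end one

section two

variable {C₀ : Type u₀} [Category.{v₀} C₀] [Preadditive C₀] [HasZeroObject C₀] [HasShift C₀ ℤ]
  [∀ n : ℤ, (shiftFunctor C₀ n).Additive] [Pretriangulated C₀] [MonoidalCategory C₀]
  [SymmetricCategory C₀] [TensorTriangulated C₀] [MonoidalPreadditive C₀]
  [RightRigidCategory C₀] [IsTriangulated C₀]
  {C : Type u} [Category.{v} C] [Preadditive C] [HasZeroObject C] [HasShift C ℤ]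
  [∀ n : ℤ, (shiftFunctor C n).Additive] [Pretriangulated C] [MonoidalCategory C]
  [SymmetricCategory C] [TensorTriangulated C] [MonoidalPreadditive C] {E : Type w} [Field E]
  {Γ : Type*} [Group Γ]
  {G : C₀ ⥤ C} [G.Monoidal] [G.Additive] [G.CommShift ℤ] {R₀ : Realisation C₀ E}
  {R : Realisation C E} {a : GalAct Γ R} {t₀ : TStructure C₀}

/-- The comparison of the cohomology groups. -/
noncomputable def phi (F : FunctionField G R₀ R a) (A : C₀) :
    R.H.obj (G.obj A) →ₗ[E] R₀.H.obj A := (F.iso.hom.app A).hom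

lemma phi_bij (F : FunctionField G R₀ R a) (A : C₀) : Function.Bijective (phi F A) :=
  (ConcreteCategory.isIso_iff_bijective (F.iso.hom.app A)).1 inferInstance

lemma phi_hm (F : FunctionField G R₀ R a) {A B : C₀} (f : A ⟶ B) (x : R.H.obj (G.obj A)) :
    phi F B (hm R (G.map f) x) = hm R₀ f (phi F A x) :=
  LinearMap.congr_fun (congrArg ModuleCat.Hom.hom (F.iso.hom.naturality f)) x

lemma phi_ex (F : FunctionField G R₀ R a) {A B : C₀} (x : R.H.obj (G.obj A))
    (y : R.H.obj (G.obj B)) :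
    phi F (A ⊗ B) (hm R (μ G A B) (ex R x y)) = ex R₀ (phi F A x) (phi F B y) := by
  have := F.monoidal
  exact LinearMap.congr_fun (congrArg ModuleCat.Hom.hom
    (NatTrans.IsMonoidal.tensor (τ := F.iso.hom) A B)) (x ⊗ₜ[E] y)

lemma phi_un (F : FunctionField G R₀ R a) :
    phi F (𝟙_ C₀) (hm R (ε G) (un R)) = un R₀ := by
  have := F.monoidal
  exact LinearMap.congr_fun (congrArg ModuleCat.Hom.hom
    (NatTrans.IsMonoidal.unit (τ := F.iso.hom))) (1 : E)

/-- The classes which come from the base field are invariant. -/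
lemma ivt_base (F : FunctionField G R₀ R a) (A : C₀) (x : R.H.obj (G.obj A)) :
    Ivt a (G.obj A) x := by
  intro g
  have h := F.trivial g A
  have h2 : a.ap g (G.obj A) x = ((𝟙 _ : R.H.obj (G.obj A) ⟶ R.H.obj (G.obj A))).hom x := by
    rw [GalAct.ap, h]
  exact h2

/-- Dual bases of the motives of invariants. -/
theorem t_DUAL (hG : Good t₀ R₀) (F : FunctionField G R₀ R a) (hFull : S_FULL t₀ G) :
    S_DUAL t₀ G a := by
  intro Z Z' b E₀ E₀' c c' hE hE' hc hc' hs hs' hn hn'
  obtain ⟨b0, hb0⟩ := hFull (E₀ ⊗ E₀') (inv (μ G E₀ E₀') ≫ (c ⊗ₘ c') ≫ b) (hG.ht.hrt hE hE').1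
  -- the pairing over the base field
  have hpair : ∀ (x : R.H.obj (G.obj E₀)) (y : R.H.obj (G.obj E₀')),
      sc R₀ (hm R₀ b0 (ex R₀ (phi F E₀ x) (phi F E₀' y))) =
        sc R (hm R b (ex R (hm R c x) (hm R c' y))) := by
    intro x y
    rw [← phi_ex, ← phi_hm, ← hb0]
    have h1 : hm R (inv (μ G E₀ E₀')) (hm R (μ G E₀ E₀') (ex R x y)) = ex R x y := by
      rw [← hm_comp, IsIso.hom_inv_id, hm_id]
    simp only [hm_comp, h1, hm_tensor]
    rw [eq_sc (hm R b (ex R (hm R c x) (hm R c' y))), map_smul, map_smul, map_smul, phi_un,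
      map_smul, sc_un, sc_un]
  have hivc : ∀ x : R.H.obj (G.obj E₀), Ivt a Z (hm R c x) := by
    intro x g
    have h1 : a.ap g Z (hm R c x) = hm R c (a.ap g _ x) :=
      LinearMap.congr_fun (congrArg ModuleCat.Hom.hom ((a.act g).hom.naturality c)) x
    rw [h1, ivt_base F E₀ x g]
  have hivc' : ∀ x : R.H.obj (G.obj E₀'), Ivt a Z' (hm R c' x) := by
    intro x g
    have h1 : a.ap g Z' (hm R c' x) = hm R c' (a.ap g _ x) :=
      LinearMap.congr_fun (congrArg ModuleCat.Hom.hom ((a.act g).hom.naturality c')) x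
    rw [h1, ivt_base F E₀' x g]
  obtain ⟨n, p, q, k, hk, hp, hq⟩ := exists_dual hG hE hE' b0
    (fun x0 hx0 => by
      obtain ⟨x, rfl⟩ := (phi_bij F E₀).2 x0
      have h1 : hm R c x = 0 := by
        apply hn _ (hivc x)
        intro z' hz'
        obtain ⟨y, rfl⟩ := hs' z' hz'
        apply sc_inj
        rw [← hpair, hx0, map_zero]
      have h2 : x = 0 := hc (by rw [h1, map_zero])
      rw [h2, map_zero])
    (fun y0 hy0 => by
      obtain ⟨y, rfl⟩ := (phi_bij F E₀').2 y0
      have h1 : hm R c' y = 0 := by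
        apply hn' _ (hivc' y)
        intro z hz
        obtain ⟨x, rfl⟩ := hs z hz
        apply sc_inj
        rw [← hpair, hy0, map_zero]
      have h2 : y = 0 := hc' (by rw [h1, map_zero])
      rw [h2, map_zero])
  choose p' hp' using fun i => (phi_bij F E₀').2 (p i)
  choose q' hq' using fun i => (phi_bij F E₀).2 (q i)
  refine ⟨n, p', q', ε G ≫ G.map k ≫ inv (μ G E₀' E₀), ?_, fun x => ?_, fun y => ?_⟩
  · have h1 : hm R (G.map k) (hm R (ε G) (un R)) = hm R (μ G E₀' E₀) (∑ i, ex R (p' i) (q' i)) := by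
      apply (phi_bij F _).1
      rw [phi_hm, phi_un, hk, map_sum, map_sum]
      apply Finset.sum_congr rfl
      intro i _
      rw [phi_ex, hp', hq']
    rw [hm_comp, hm_comp, h1, ← hm_comp, IsIso.hom_inv_id, hm_id]
  · apply (phi_bij F _).1
    rw [map_sum]
    conv_rhs => rw [← hp (phi F E₀' x)]
    apply Finset.sum_congr rfl
    intro i _
    rw [map_smul, hp', ← hpair, hq']
  · apply (phi_bij F _).1
    rw [map_sum]
    conv_rhs => rw [← hq (phi F E₀ y)]
    apply Finset.sum_congr rfl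
    intro i _
    rw [map_smul, hq', ← hpair, hp']

end two

end Pool.Agent.U978.SO
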